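import Pool.Agent.Helper56.NB.Defs

/-!
Block NB-ECP: the fraction field of `C / p C` is an existentially closed extension.
-/

open scoped TensorProduct

namespace Pool.Agent.Helper56.NB

open Pool.Agent.H35SD Pool.Agent.Helper56.SDD

universe u v

namespace ECP

variable {C : Type u} [CommRing C] {C₀ : Subring C} {K : Type u} [Field K] (π : C →+* K)

/-- The fractions of elements of the subring. -/
def frac (C₀ : Subring C) (π : C →+* K) : Subfield K where
  carrier := {x | ∃ a b : C₀, π b ≠ 0 ∧ x = π a / π b}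
  mul_mem' := by
    rintro x y ⟨a, b, hb, rfl⟩ ⟨c, d, hd, rfl⟩
    refine ⟨a * c, b * d, ?_, ?_⟩
    · push_cast
      rw [map_mul]
      exact mul_ne_zero hb hd
    · push_cast
      rw [map_mul, map_mul, div_mul_div_comm]
  one_mem' := ⟨1, 1, by simp, by simp⟩
  add_mem' := by
    rintro x y ⟨a, b, hb, rfl⟩ ⟨c, d, hd, rfl⟩
    refine ⟨a * d + b * c, b * d, ?_, ?_⟩
    · push_cast
      rw [map_mul]
      exact mul_ne_zero hb hd
    · push_cast
      rw [map_mul, map_add, map_mul, map_mul, div_add_div _ _ hb hd]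
  zero_mem' := ⟨0, 1, by simp, by simp⟩
  neg_mem' := by
    rintro x ⟨a, b, hb, rfl⟩
    refine ⟨-a, b, hb, ?_⟩
    push_cast
    rw [map_neg, neg_div]
  inv_mem' := by
    rintro x ⟨a, b, hb, rfl⟩
    by_cases ha : π a = 0
    · refine ⟨0, 1, by simp, by simp [ha]⟩
    · exact ⟨b, a, ha, by rw [inv_div]⟩

lemma mem_frac {x : K} : x ∈ frac C₀ π ↔ ∃ a b : C₀, π b ≠ 0 ∧ x = π a / π b := Iff.rfl

lemma closure_le : Subfield.closure (Set.range (π.comp (algebraMap C₀ C))) ≤ frac C₀ π := by
  rw [Subfield.closure_le]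
  rintro _ ⟨a, rfl⟩
  refine ⟨a, 1, by simp, ?_⟩
  simp only [RingHom.comp_apply, OneMemClass.coe_one, map_one, div_one]
  rfl

lemma mem_closure (a : C₀) : π a ∈ Subfield.closure (Set.range (π.comp (algebraMap C₀ C))) :=
  Subfield.subset_closure ⟨a, rfl⟩

open MvPolynomial

/-- Clearing the denominators of a polynomial. -/
lemma clear (n : ℕ)
    (t : MvPolynomial (Fin n) (Subfield.closure (Set.range (π.comp (algebraMap C₀ C))))) :
    ∃ (N : ℕ) (δ : C₀) (t₁ : MvPolynomial (Fin (n + 1)) C₀), π δ ≠ 0 ∧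
      ∀ P : Fin (n + 1) → C, π (P (Fin.last n)) ≠ 0 →
        π (aeval P t₁) = π δ * π (P (Fin.last n)) ^ N *
          aeval (fun i : Fin n => π (P i.castSucc) / π (P (Fin.last n))) t := by
  induction t using MvPolynomial.induction_on with
  | C a =>
    obtain ⟨u, b, hb, hab⟩ := closure_le π a.2
    refine ⟨0, b, MvPolynomial.C u, hb, fun P _ => ?_⟩
    rw [aeval_C, aeval_C, pow_zero, mul_one]
    have h1 : (algebraMap (Subfield.closure (Set.range (π.comp (algebraMap C₀ C)))) K a) =
      π u / π b := hab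
    have h2 : (algebraMap C₀ C u : C) = (u : C) := rfl
    rw [h1, h2, mul_div_cancel₀ _ hb]
  | add p q hp hq =>
    obtain ⟨N1, δ1, p1, h1, e1⟩ := hp
    obtain ⟨N2, δ2, q1, h2, e2⟩ := hq
    refine ⟨N1 + N2, δ1 * δ2, MvPolynomial.C δ2 * X (Fin.last n) ^ N2 * p1 +
      MvPolynomial.C δ1 * X (Fin.last n) ^ N1 * q1, ?_, fun P hP => ?_⟩
    · push_cast
      rw [map_mul]
      exact mul_ne_zero h1 h2
    · have c1 : (algebraMap C₀ C δ1 : C) = (δ1 : C) := rfl
      have c2 : (algebraMap C₀ C δ2 : C) = (δ2 : C) := rfl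
      rw [map_add, map_mul, map_mul, map_mul, map_mul, map_pow, map_pow, aeval_X, aeval_C,
        aeval_C, c1, c2, map_add, map_mul, map_mul, map_mul, map_mul, map_pow, map_pow, e1 P hP,
        e2 P hP, map_add]
      push_cast
      rw [map_mul]
      ring
  | mul_X p i hp =>
    obtain ⟨N, δ, p1, h1, e1⟩ := hp
    refine ⟨N + 1, δ, p1 * X i.castSucc, h1, fun P hP => ?_⟩
    rw [map_mul, aeval_X, map_mul, e1 P hP, map_mul, aeval_X]
    field_simp
    ring

end ECP

open MvPolynomial in
theorem GoodSub.ec {C : Type u} [CommRing C] [IsNoetherianRing C] {C₀ : Subring C}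
    (h : GoodSub C₀) (p : Ideal C₀) (hp : p.IsPrime) (K : Type u) [Field K]
    (π : C →+* K) (hker : RingHom.ker π = p.map (algebraMap C₀ C))
    (hfrac : ∀ x : K, ∃ a b : C, π b ≠ 0 ∧ x = π a / π b) :
    EC (Subfield.closure (Set.range (π.comp (algebraMap C₀ C)))) K := by
  classical
  apply ecf_of_key
  intro n T g x hx hg
  -- a finite set of generators
  obtain ⟨B, hB⟩ : ∃ B : Finset C₀, (Ideal.span (B : Set C₀)).map (algebraMap C₀ C) =
      RingHom.ker π := by
    have hfg : (Submodule.span C ((algebraMap C₀ C) '' (p : Set C₀))).FG := by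
      have : (Ideal.map (algebraMap C₀ C) p).FG := IsNoetherian.noetherian _
      exact this
    rw [Submodule.fg_span_iff_fg_span_finset_subset] at hfg
    obtain ⟨s, hs, hspan⟩ := hfg
    have hs' : ∀ c ∈ s, ∃ b : C₀, b ∈ p ∧ algebraMap C₀ C b = c := fun c hc => hs hc
    choose! φ hφ using hs'
    refine ⟨s.image φ, ?_⟩
    rw [hker, Ideal.map_span]
    have h1 : (algebraMap C₀ C) '' ((s.image φ : Finset C₀) : Set C₀) = (s : Set C) := by
      ext c
      constructor
      · rintro ⟨b, hb, rfl⟩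
        rw [Finset.mem_coe, Finset.mem_image] at hb
        obtain ⟨c, hc, rfl⟩ := hb
        rw [(hφ _ hc).2]
        exact hc
      · intro hc
        refine ⟨φ c, ?_, (hφ _ hc).2⟩
        rw [Finset.mem_coe, Finset.mem_image]
        exact ⟨c, hc, rfl⟩
    rw [h1]
    exact hspan.symm
  -- clearing denominators
  choose N δ t1 hδ hcl using ECP.clear (C₀ := C₀) π n
  -- a common denominator
  obtain ⟨P, hPl, hPx⟩ : ∃ P : Fin (n + 1) → C, π (P (Fin.last n)) ≠ 0 ∧
      ∀ i : Fin n, π (P i.castSucc) / π (P (Fin.last n)) = x i := by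
    choose a b hb hab using fun i => hfrac (x i)
    refine ⟨Fin.snoc (fun i => a i * ∏ j ∈ Finset.univ.erase i, b j) (∏ j, b j), ?_, ?_⟩
    · rw [Fin.snoc_last, map_prod]
      exact Finset.prod_ne_zero_iff.2 fun j _ => hb j
    · intro i
      rw [Fin.snoc_last, Fin.snoc_castSucc, hab i]
      have h1 : ∏ j, b j = b i * ∏ j ∈ Finset.univ.erase i, b j :=
        (Finset.mul_prod_erase Finset.univ b (Finset.mem_univ i)).symm
      have h2 : π (∏ j ∈ Finset.univ.erase i, b j) ≠ 0 := by
        rw [map_prod]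
        exact Finset.prod_ne_zero_iff.2 fun j _ => hb j
      rw [h1, map_mul, map_mul, mul_div_mul_right _ _ h2]
  have hPfun : (fun i : Fin n => π (P i.castSucc) / π (P (Fin.last n))) = x := funext hPx
  have hmem : ∀ c : C, c ∈ (Ideal.span (B : Set C₀)).map (algebraMap C₀ C) ↔ π c = 0 := by
    intro c
    rw [hB, RingHom.mem_ker]
  obtain ⟨z, hz1, hz2⟩ := h.sol (n + 1) (T.image t1) {t1 g, X (Fin.last n)} B P (by
      intro t ht
      obtain ⟨t', ht', rfl⟩ := Finset.mem_image.1 ht
      rw [hmem, hcl t' P hPl, hPfun, hx t' ht', mul_zero])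
    (by
      intro t ht
      rw [Finset.mem_insert, Finset.mem_singleton] at ht
      rw [hmem]
      rcases ht with rfl | rfl
      · rw [hcl g P hPl, hPfun]
        exact mul_ne_zero (mul_ne_zero (hδ g) (pow_ne_zero _ hPl)) hg
      · rw [aeval_X]; exact hPl)
  set P' : Fin (n + 1) → C := fun i => (z i : C) with hP'
  have hev : ∀ t : MvPolynomial (Fin (n + 1)) C₀,
      algebraMap C₀ C (aeval z t) = aeval P' t := by
    intro t
    rw [aeval_def, aeval_def, hom_eval₂]
    rfl
  have hP'l : π (P' (Fin.last n)) ≠ 0 := by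
    have h1 := hz2 (X (Fin.last n)) (by simp)
    rw [hmem, hev, aeval_X] at h1
    exact h1
  have hzm : ∀ i : Fin n, π (P' i.castSucc) / π (P' (Fin.last n)) ∈
      Subfield.closure (Set.range (π.comp (algebraMap C₀ C))) := by
    intro i
    exact div_mem (ECP.mem_closure π (z i.castSucc)) (ECP.mem_closure π (z (Fin.last n)))
  have hval : ∀ t : MvPolynomial (Fin n)
      (Subfield.closure (Set.range (π.comp (algebraMap C₀ C)))),
      aeval (fun i : Fin n => π (P' i.castSucc) / π (P' (Fin.last n))) t =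
      (Subfield.closure (Set.range (π.comp (algebraMap C₀ C)))).subtype
        (aeval (fun i => (⟨π (P' i.castSucc) / π (P' (Fin.last n)), hzm i⟩ :
          (Subfield.closure (Set.range (π.comp (algebraMap C₀ C)))))) t) := by
    intro t
    rw [aeval_def, aeval_def, hom_eval₂]
    rfl
  refine ⟨fun i => ⟨π (P' i.castSucc) / π (P' (Fin.last n)), hzm i⟩, ?_, ?_⟩
  · intro t ht
    have h1 := hz1 (t1 t) (Finset.mem_image_of_mem _ ht)
    rw [hmem, hev, hcl t P' hP'l] at h1
    have h2 : aeval (fun i : Fin n => π (P' i.castSucc) / π (P' (Fin.last n))) t = 0 := by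
      rcases mul_eq_zero.1 h1 with h3 | h3
      · exact absurd h3 (mul_ne_zero (hδ t) (pow_ne_zero _ hP'l))
      · exact h3
    rw [hval] at h2
    exact Subtype.ext h2
  · intro hcon
    have h1 := hz2 (t1 g) (by simp)
    rw [hmem, hev, hcl g P' hP'l, hval, hcon, map_zero, mul_zero] at h1
    exact h1 rfl

end Pool.Agent.Helper56.NB
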